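import Pool.Agent.Results.MP_bc9ae7_nt.SparseExceptions
import Pool.Agent.V1172.PW.Eng2
import Pool.Agent.Y854.GM.Win

/-!
# Harmonic thresholds: all `k` in shrinking residue classes and in windows

Let `n_k` be the least `n` with `H_n > k`. We show that `|n_k - e^{k-γ}| < 1/2 - e^{-k}`, so that `n_k` is the integer nearest to
`e^{k-γ}`, for ALL `k` of the following sets.

(1) Let `l` be a prime number and `s > 0`. For all `l`-adic integers `a` outside of a set of Hausdorff dimension at most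
`(8/9) / s` and all large `T`: all `k ≤ T` with `|k - a|_l ≤ T^{-s}`, that is, in the residue class of `a` modulo the least
`l^f ≥ T^s`.

(2) Let `1 ≤ u_0, u_1, …` be reals with `∑ u_m^{-t} < ∞` for all `t > τ`, `θ < 1`. For all `a > 0` outside of a set of Hausdorff
dimension at most `(8/9 + τ) / (1 - θ)` and all large `m`: all `k` with `|k - a u_m| ≤ u_m^θ`.

The input is the starting theorem `SparseExceptions`.
-/

set_option autoImplicit false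

namespace Pool.Agent.Results.MP_bc9ae7_nt.IntegersNearPlaces

open SparseExceptions (NearlyExceptional)

/-- `|n_k - e^{k-γ}| < 1/2 - e^{-k}` -/
def Nearest (k : ℕ) : Prop :=
  ∀ n : ℕ, ((harmonic (n - 1) : ℚ) : ℝ) < (k : ℝ) → (k : ℝ) < ((harmonic n : ℚ) : ℝ) →
    |(n : ℝ) - Real.exp ((k : ℝ) - Real.eulerMascheroniConstant)| < 1 / 2 - Real.exp (-(k : ℝ))

theorem nearest_of {k : ℕ} (h : ¬ NearlyExceptional 1 k) : Nearest k := by
  intro n h1 h2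
  by_contra hcon
  push Not at hcon
  refine h ⟨n, h1, h2, ?_⟩
  rw [one_mul]
  exact hcon

/-- the exceptional `k` -/
def B : Set ℕ := {k : ℕ | 1 ≤ k ∧ NearlyExceptional 1 k}

theorem count (ε : ℝ) (hε : 0 < ε) : ∃ C : ℝ, ∀ X : ℝ, 1 ≤ X → {k : ℕ | k ∈ B ∧ (k : ℝ) ≤ X}.Finite ∧
    ({k : ℕ | k ∈ B ∧ (k : ℝ) ≤ X}.ncard : ℝ) ≤ C * X ^ (8 / 9 + ε) := by
  obtain ⟨κ, hκ⟩ : ∃ κ : ℝ, κ = max (1 / 9 - ε) (1 / 18) := ⟨_, rfl⟩
  have k1 : 1 / 9 - ε ≤ κ := by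
    rw [hκ]
    exact le_max_left _ _
  have k2 : 1 / 18 ≤ κ := by
    rw [hκ]
    exact le_max_right _ _
  have k3 : κ < 1 / 9 := by
    rw [hκ]
    exact max_lt (by linarith) (by norm_num)
  obtain ⟨-, D, hD⟩ := SparseExceptions.result.2.2 2 1 κ (by norm_num) (by norm_num) (by norm_num) (by linarith)
    (by push_cast; linarith)
  refine ⟨|D|, fun X hX => ?_⟩
  have h1 : 1 ≤ ⌊X⌋₊ := Nat.le_floor (by exact_mod_cast hX)
  refine ⟨(Set.finite_Icc 0 ⌊X⌋₊).subset fun t ht => ⟨Nat.zero_le _, Nat.le_floor ht.2⟩, ?_⟩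
  have h2 := hD ⌊X⌋₊ h1
  have e : {k : ℕ | k ∈ B ∧ (k : ℝ) ≤ X} = {k : ℕ | 1 ≤ k ∧ k ≤ ⌊X⌋₊ ∧ NearlyExceptional 1 k} := by
    ext k
    constructor
    · rintro ⟨⟨a, b⟩, c⟩
      exact ⟨a, Nat.le_floor c, b⟩
    · rintro ⟨a, b, c⟩
      exact ⟨⟨a, c⟩, (Nat.le_floor_iff (by linarith)).1 b⟩
  rw [e, ← Nat.card_coe_set_eq]
  refine h2.trans ?_
  have h3 : ((⌊X⌋₊ : ℕ) : ℝ) ^ (1 - κ) ≤ X ^ (8 / 9 + ε) :=
    (Real.rpow_le_rpow (Nat.cast_nonneg _) (Nat.floor_le (by linarith)) (by linarith)).trans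
      (Real.rpow_le_rpow_of_exponent_le hX (by linarith))
  exact (mul_le_mul_of_nonneg_right (le_abs_self D) (by positivity)).trans
    (mul_le_mul_of_nonneg_left h3 (abs_nonneg D))

/-- **Theorem.** `|n_k - e^{k-γ}| < 1/2 - e^{-k}`, so that `n_k` is the integer nearest to `e^{k-γ}`: (1) for all `a ∈ ℤ_l`
outside of a set of dimension at most `(8/9) / s` and all large `T`, for ALL `1 ≤ k ≤ T` with `|k - a|_l ≤ T^{-s}`; (2) for all
`a > 0` outside of a set of dimension at most `(8/9 + τ) / (1 - θ)` and all large `m`, for ALL `k ≥ 1` with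
`|k - a u_m| ≤ u_m^θ`. -/
theorem result :
    (∀ (l : ℕ) [Fact l.Prime] (s : ℝ), 0 < s → ∃ E : Set ℤ_[l], dimH E ≤ ENNReal.ofReal (8 / 9 / s) ∧
      ∀ a : ℤ_[l], a ∉ E → ∃ T₀ : ℝ, ∀ T : ℝ, T₀ ≤ T → ∀ k : ℕ, 1 ≤ k → (k : ℝ) ≤ T →
        ‖(k : ℤ_[l]) - a‖ ≤ T ^ (-s) → Nearest k) ∧
    (∀ (u : ℕ → ℝ) (τ θ : ℝ), (∀ m, 1 ≤ u m) → 0 ≤ τ → (∀ t : ℝ, τ < t → Summable fun m : ℕ => u m ^ (-t)) → θ < 1 →
      ∃ Z : Set ℝ, dimH Z ≤ ENNReal.ofReal ((8 / 9 + τ) / (1 - θ)) ∧ ∀ a : ℝ, 0 < a → a ∉ Z →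
        ∃ m₀ : ℕ, ∀ m : ℕ, m₀ ≤ m → ∀ k : ℕ, 1 ≤ k → |(k : ℝ) - a * u m| ≤ u m ^ θ → Nearest k) := by
  constructor
  · intro l _ s hs
    obtain ⟨E, h1, h2⟩ := Pool.Agent.V1172.PW.objs l (P := ℕ) (fun n => (n : ℤ)) (ι := Unit) (fun _ => B) (s := 8 / 9)
      (by norm_num)
      (fun _ ε hε => by
        obtain ⟨C, hC⟩ := count ε hε
        refine ⟨C, fun X hX => ?_⟩
        have e : {t : ℕ | t ∈ B ∧ |(((t : ℤ)) : ℝ)| ≤ X} = {n | n ∈ B ∧ (n : ℝ) ≤ X} := by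
          ext v
          refine and_congr_right fun _ => ?_
          rw [Int.cast_natCast, Nat.abs_cast]
        rw [e]
        exact hC X hX) hs
    refine ⟨E, h1, fun a ha => ?_⟩
    obtain ⟨T₀, hT⟩ := h2 a ha ()
    refine ⟨T₀, fun T hT1 k hk hkT hka => nearest_of fun hbad => ?_⟩
    refine hT T hT1 k ?_ ?_ ⟨hk, hbad⟩
    · rw [Int.cast_natCast, Nat.abs_cast]
      exact hkT
    · rw [Int.cast_natCast]
      exact hka
  · intro u τ θ hu hτ hgrow hθ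
    obtain ⟨Z, h1, h2⟩ := Pool.Agent.Y854.GM.windows B (fun n : ℕ => (n : ℝ)) hu hτ hgrow (s := 8 / 9) (by norm_num) hθ
      (fun ε hε => count ε hε)
    refine ⟨Z, h1, fun a ha haZ => ?_⟩
    obtain ⟨m₀, hm₀⟩ := h2 a ha haZ
    refine ⟨m₀, fun m hm k hk hkm => nearest_of fun hbad => ?_⟩
    exact absurd hkm (not_le.2 (hm₀ m hm k ⟨hk, hbad⟩))

end Pool.Agent.Results.MP_bc9ae7_nt.IntegersNearPlaces
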